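import Mathlib

/-!
# MP_7fb2f0_pr : edge marginals of uniform connected subgraphs of fixed excess

We disprove Q1.  The graph is a closing edge `e = {0,10}` together with a chain of five triangles
`{2i, 2i+1, 2i+2}`, `0 ≤ i < 5`, (11 vertices, 16 edges).  Here
`p_e(-1) = 810/1053 > 1323/1728 = p_e(0)`.
-/

namespace Pool.Agent.Results.MP_7fb2f0_pr.MarginalNotMonotone

open Finset

/-- `connSub G k` : the edge sets of the connected spanning subgraphs of `G` of excess `k`. -/
def connSub {V : Type} [Fintype V] (G : SimpleGraph V) (k : ℤ) : Set (Set (Sym2 V)) :=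
  {F | F ⊆ G.edgeSet ∧ (SimpleGraph.fromEdgeSet F).Connected ∧
    (F.ncard : ℤ) - Fintype.card V = k}

/-- `marginal G e k` : the probability that `e` is open in a uniformly random connected spanning
subgraph of `G` of excess `k`. -/
noncomputable def marginal {V : Type} [Fintype V] (G : SimpleGraph V) (e : Sym2 V) (k : ℤ) : ℚ :=
  (({F | F ∈ connSub G k ∧ e ∈ F} : Set (Set (Sym2 V))).ncard : ℚ) / ((connSub G k).ncard : ℚ)

/-! ### the counting program -/

/-- merge the classes of `a` and `b` -/
def merge (L : List ℕ) (a b : ℕ) : List ℕ :=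
  L.map (fun t => if t = L.getD b 0 then L.getD a 0 else t)

/-- all labels equal -/
def allEq : List ℕ → Bool
  | [] => true
  | x :: xs => xs.all (fun y => y == x)

/-- number of `m`-subsets of the list of edges that connect everything -/
def cnt : List (ℕ × ℕ) → List ℕ → ℕ → ℕ
  | [], L, m => match m with
    | 0 => if allEq L then 1 else 0
    | _ + 1 => 0
  | (a, b) :: es, L, m => match m with
    | 0 => if allEq L then 1 else 0
    | m + 1 => if es.length + 1 < m + 1 then 0 else cnt es (merge L a b) m + cnt es L (m + 1)

/-- faster version of `cnt`; `c` is a lower bound for the number of classes, used for pruning -/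
def cntF : List (ℕ × ℕ) → List ℕ → ℕ → ℕ → ℕ
  | [], L, _, m => match m with
    | 0 => cond (allEq L) 1 0
    | _ + 1 => 0
  | (a, b) :: es, L, c, m => match m with
    | 0 => cond (allEq L) 1 0
    | m + 1 => cond (Nat.ble (es.length + 1) m) 0
        (cond (Nat.ble (m + 3) c) 0
          (cond (Nat.beq (L.getD a 0) (L.getD b 0)) (cntF es L c m + cntF es L c (m + 1))
            (cntF es (merge L a b) (c - 1) m + cntF es L c (m + 1))))

theorem card_le_of_allEq (L : List ℕ) (h : allEq L = true) : L.toFinset.card ≤ 1 := by
  cases L with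
  | nil => simp
  | cons x xs =>
    simp only [allEq, List.all_eq_true, beq_iff_eq] at h
    rw [Finset.card_le_one]
    intro a ha b hb
    simp only [List.mem_toFinset, List.mem_cons] at ha hb
    have ha' : a = x := ha.elim id (h a)
    have hb' : b = x := hb.elim id (h b)
    rw [ha', hb']

theorem card_merge (L : List ℕ) (a b : ℕ) :
    L.toFinset.card ≤ (merge L a b).toFinset.card + 1 := by
  refine le_trans (Finset.card_le_card (t := insert (L.getD b 0) (merge L a b).toFinset) ?_)
    (Finset.card_insert_le _ _)
  intro t ht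
  rw [List.mem_toFinset] at ht
  by_cases h : t = L.getD b 0
  · rw [h]; exact Finset.mem_insert_self _ _
  · apply Finset.mem_insert_of_mem
    rw [List.mem_toFinset]
    unfold merge
    rw [List.mem_map]
    exact ⟨t, ht, by rw [if_neg h]⟩

theorem merge_same (L : List ℕ) (a b : ℕ) (h : L.getD a 0 = L.getD b 0) : merge L a b = L := by
  unfold merge
  rw [h]
  have : (fun t : ℕ => if t = L.getD b 0 then L.getD b 0 else t) = id := by
    funext t
    by_cases ht : t = L.getD b 0
    · rw [if_pos ht, ht]; rfl
    · rw [if_neg ht]; rfl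
  rw [this, List.map_id]

theorem cnt_eq_zero (es : List (ℕ × ℕ)) :
    ∀ (L : List ℕ) (m : ℕ), m + 1 < L.toFinset.card → cnt es L m = 0 := by
  have h0 : ∀ (L : List ℕ), 0 + 1 < L.toFinset.card → (if allEq L then 1 else 0) = 0 := by
    intro L h
    rw [if_neg]
    intro h'
    have := card_le_of_allEq L h'
    omega
  induction es with
  | nil => 
    intro L m h
    cases m with
    | zero => exact h0 L h
    | succ m => rfl
  | cons p es ih =>
    intro L m h
    obtain ⟨a, b⟩ := p
    cases m with
    | zero => exact h0 L h
    | succ m =>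
      change (if es.length + 1 < m + 1 then 0 else cnt es (merge L a b) m + cnt es L (m + 1)) = 0
      split_ifs with h1
      · rfl
      · rw [ih _ _ h, ih]
        have := card_merge L a b
        omega

theorem cntF_eq (es : List (ℕ × ℕ)) :
    ∀ (L : List ℕ) (c m : ℕ), c ≤ L.toFinset.card → cntF es L c m = cnt es L m := by
  have h0 : ∀ (L : List ℕ), cond (allEq L) 1 0 = (if allEq L then 1 else 0) := by
    intro L
    cases allEq L <;> rfl
  induction es with
  | nil => 
    intro L c m h
    cases m with
    | zero => exact h0 L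
    | succ m => rfl
  | cons p es ih =>
    intro L c m h
    obtain ⟨a, b⟩ := p
    cases m with
    | zero => exact h0 L
    | succ m =>
      change cond (Nat.ble (es.length + 1) m) 0
        (cond (Nat.ble (m + 3) c) 0
          (cond (Nat.beq (L.getD a 0) (L.getD b 0)) (cntF es L c m + cntF es L c (m + 1))
            (cntF es (merge L a b) (c - 1) m + cntF es L c (m + 1)))) = _
      by_cases h1 : es.length + 1 ≤ m
      · rw [Nat.ble_eq_true_of_le h1]
        change 0 = (if es.length + 1 < m + 1 then 0 else _)
        rw [if_pos (by omega)]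
      · have h1' : Nat.ble (es.length + 1) m = false := by
          rw [← Bool.not_eq_true]
          exact fun h => h1 (Nat.le_of_ble_eq_true h)
        rw [h1']
        by_cases h2 : m + 3 ≤ c
        · rw [Nat.ble_eq_true_of_le h2]
          change 0 = _
          rw [cnt_eq_zero _ _ _ (by omega)]
        · have h2' : Nat.ble (m + 3) c = false := by
            rw [← Bool.not_eq_true]
            exact fun h => h2 (Nat.le_of_ble_eq_true h)
          rw [h2']
          have h3 : cnt ((a, b) :: es) L (m + 1) = cnt es (merge L a b) m + cnt es L (m + 1) := by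
            change (if es.length + 1 < m + 1 then 0 else _) = _
            rw [if_neg (by omega)]
          rw [h3]
          by_cases h4 : L.getD a 0 = L.getD b 0
          · have h4' : Nat.beq (L.getD a 0) (L.getD b 0) = true := by
              rw [h4]; exact Nat.beq_refl _
            rw [h4', merge_same L a b h4, ← ih L c m h, ← ih L c (m + 1) h]
            rfl
          · have h4' : Nat.beq (L.getD a 0) (L.getD b 0) = false := by
              rw [← Bool.not_eq_true]
              exact fun h => h4 (Nat.eq_of_beq_eq_true h)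
            rw [h4', ← ih (merge L a b) (c - 1) m (by have := card_merge L a b; omega),
              ← ih L c (m + 1) h]
            rfl

/-! ### semantics -/

variable {n : ℕ}

/-- the label of a vertex -/
def lab (L : List ℕ) (u : Fin n) : ℕ := L.getD u.val 0

/-- every two-colouring constant on the label classes and along the edges of `F` is constant -/
def CC (L : List ℕ) (F : Finset (Sym2 (Fin n))) : Prop :=
  ∀ c : Fin n → Bool, (∀ u v, lab L u = lab L v → c u = c v) →
    (∀ u v, s(u, v) ∈ F → c u = c v) → ∀ u v, c u = c v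

theorem lab_merge {L : List ℕ} (hL : L.length = n) (a b u : Fin n) :
    lab (merge L a b) u = if lab L u = lab L b then lab L a else lab L u := by
  unfold lab merge
  have hu : u.val < L.length := by rw [hL]; exact u.2
  rw [List.getD_eq_getElem _ _ (by simpa using hu), List.getElem_map,
    show L.getD u.val 0 = L[u.val] from List.getD_eq_getElem _ _ hu]

theorem CC_merge {L : List ℕ} (hL : L.length = n) (a b : Fin n) (F : Finset (Sym2 (Fin n))) :
    CC L (insert s(a, b) F) ↔ CC (merge L a b) F := by
  constructor
  · intro h c h1 h2 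
    apply h c
    · intro u v huv
      apply h1
      rw [lab_merge hL, lab_merge hL, huv]
    · intro u v huv
      rcases Finset.mem_insert.1 huv with h3 | h3
      · have hab : c a = c b := by
          apply h1
          rw [lab_merge hL, lab_merge hL]
          simp
        rcases Sym2.eq_iff.1 h3 with ⟨rfl, rfl⟩ | ⟨rfl, rfl⟩
        · exact hab
        · exact hab.symm
      · exact h2 u v h3
  · intro h c h1 h2
    have hab : c a = c b := h2 a b (Finset.mem_insert_self _ _)
    apply h c
    · intro u v huv
      rw [lab_merge hL, lab_merge hL] at huv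
      split_ifs at huv with h3 h4 h4
      · rw [h1 u b h3, h1 v b h4]
      · rw [h1 u b h3, ← hab]; exact h1 a v huv
      · rw [h1 v b h4, ← hab]; exact h1 u a huv
      · exact h1 u v huv
    · intro u v huv
      exact h2 u v (Finset.mem_insert_of_mem huv)

theorem allEq_iff {L : List ℕ} (hL : L.length = n) :
    allEq L = true ↔ ∀ u v : Fin n, lab L u = lab L v := by
  unfold lab
  cases L with
  | nil => 
    simp [allEq]
  | cons x xs =>
    simp only [allEq, List.all_eq_true, beq_iff_eq]
    constructor
    · intro h
      have key : ∀ u : Fin n, (x :: xs).getD u.val 0 = x := by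
        intro u
        have hu : u.val < (x :: xs).length := by rw [hL]; exact u.2
        rw [List.getD_eq_getElem _ _ hu]
        have := List.getElem_mem hu
        rcases List.mem_cons.1 this with h1 | h1
        · exact h1
        · exact h _ h1
      intro u v
      rw [key u, key v]
    · intro h y hy
      obtain ⟨i, hi, rfl⟩ := List.getElem_of_mem hy
      have h0 : 0 < n := by rw [← hL]; simp
      have hi' : i + 1 < n := by rw [← hL]; simp [hi]
      have := h ⟨i + 1, hi'⟩ ⟨0, h0⟩
      simpa [List.getD_eq_getElem, hi] using this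

theorem CC_empty {L : List ℕ} (hL : L.length = n) :
    CC L (∅ : Finset (Sym2 (Fin n))) ↔ allEq L = true := by
  rw [allEq_iff hL]
  constructor
  · intro h u v
    have := h (fun w => decide (lab L w = lab L v)) (by
      intro u' v' h'
      simp [h']) (by simp) u v
    simpa using this
  · intro h c h1 _ u v
    exact h1 u v (h u v)

theorem length_merge (L : List ℕ) (a b : ℕ) : (merge L a b).length = L.length := by
  simp [merge]

/-- the edges of a list of pairs -/
def edg (es : List (Fin n × Fin n)) : List (Sym2 (Fin n)) := es.map (fun p => s(p.1, p.2))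

/-- forget the bound -/
def toN (es : List (Fin n × Fin n)) : List (ℕ × ℕ) := es.map (fun p => (p.1.val, p.2.val))

open Classical in
theorem card_filter_CC (es : List (Fin n × Fin n)) :
    ∀ (_ : (edg es).Nodup) (L : List ℕ) (_ : L.length = n) (m : ℕ),
      (((edg es).toFinset.powersetCard m).filter (fun F => CC L F)).card = cnt (toN es) L m := by
  have h0 : ∀ (S : Finset (Sym2 (Fin n))) (L : List ℕ) (_ : L.length = n),
      ((S.powersetCard 0).filter (fun F => CC L F)).card = if allEq L then 1 else 0 := by
    intro S L hL
    rw [Finset.powersetCard_zero, Finset.filter_singleton]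
    by_cases h : allEq L = true
    · rw [if_pos ((CC_empty hL).2 h), if_pos h]; simp
    · rw [if_neg (fun h' => h ((CC_empty hL).1 h')), if_neg h]; simp
  induction es with
  | nil =>
    intro _ L hL m
    cases m with
    | zero =>
      rw [h0 _ L hL]
      rfl
    | succ m =>
      have : ((edg ([] : List (Fin n × Fin n))).toFinset.powersetCard (m + 1)) = ∅ := by
        apply Finset.powersetCard_eq_empty.2
        simp [edg]
      rw [this]
      rfl
  | cons p es ih =>
    intro hnd L hL m
    obtain ⟨a, b⟩ := p
    have hnd' : s(a, b) ∉ edg es ∧ (edg es).Nodup := List.nodup_cons.1 hnd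
    cases m with
    | zero => 
      rw [h0 _ L hL]
      rfl
    | succ m =>
      have hcnt : cnt (toN ((a, b) :: es)) L (m + 1) =
        if (toN es).length + 1 < m + 1 then 0 else
          cnt (toN es) (merge L a b) m + cnt (toN es) L (m + 1) := rfl
      rw [hcnt]
      have hlen : (edg es).toFinset.card = es.length := by
        rw [List.toFinset_card_of_nodup hnd'.2]; simp [edg]
      have hlen2 : (toN es).length = es.length := by simp [toN]
      have hS : (edg ((a, b) :: es)).toFinset = insert s(a, b) (edg es).toFinset := by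
        simp [edg]
      have hnot : s(a, b) ∉ (edg es).toFinset := by
        rw [List.mem_toFinset]; exact hnd'.1
      rw [hS]
      split_ifs with hlt
      · rw [Finset.powersetCard_eq_empty.2]
        · rfl
        · rw [Finset.card_insert_of_notMem hnot, hlen]
          rw [hlen2] at hlt
          exact hlt
      · rw [Finset.powersetCard_succ_insert hnot, Finset.filter_union,
          Finset.card_union_of_disjoint, ← ih hnd'.2 (merge L a b) (by rw [length_merge, hL]) m,
          ← ih hnd'.2 L hL (m + 1), add_comm]
        · congr 1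
          rw [Finset.filter_image, Finset.card_image_of_injOn]
          · congr 1
            apply Finset.filter_congr
            intro F _
            exact CC_merge hL a b F
          · intro F hF F' hF' hEq
            have h1 : s(a, b) ∉ F := fun h => hnot ((Finset.mem_powersetCard.1
              (Finset.mem_filter.1 hF).1).1 h)
            have h2 : s(a, b) ∉ F' := fun h => hnot ((Finset.mem_powersetCard.1
              (Finset.mem_filter.1 hF').1).1 h)
            have hEq' : insert s(a, b) F = insert s(a, b) F' := hEq
            rw [← Finset.erase_insert h1, hEq', Finset.erase_insert h2]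
        · rw [Finset.disjoint_left]
          intro F hF hF'
          have h1 := (Finset.mem_powersetCard.1 (Finset.mem_filter.1 hF).1).1
          obtain ⟨F'', _, rfl⟩ := Finset.mem_image.1 (Finset.mem_filter.1 hF').1
          exact hnot (h1 (Finset.mem_insert_self _ _))

theorem connected_iff (hn : 0 < n) (F : Finset (Sym2 (Fin n))) :
    (SimpleGraph.fromEdgeSet (F : Set (Sym2 (Fin n)))).Connected ↔ CC (List.range n) F := by
  have hlab : ∀ u : Fin n, lab (List.range n) u = u.val := by
    intro u
    unfold lab
    rw [List.getD_eq_getElem _ _ (by simp)]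
    simp
  constructor
  · intro h c _ h2 u v
    obtain ⟨p⟩ := h.preconnected u v
    induction p with
    | nil => rfl
    | cons hadj _ ih =>
      rw [SimpleGraph.fromEdgeSet_adj] at hadj
      rw [h2 _ _ (by exact_mod_cast hadj.1), ih]
  · intro h
    have : Nonempty (Fin n) := ⟨⟨0, hn⟩⟩
    refine ⟨fun u v => ?_⟩
    classical
    have := h (fun w => decide ((SimpleGraph.fromEdgeSet (F : Set (Sym2 (Fin n)))).Reachable w v))
      (by
        intro u' v' h'
        rw [hlab, hlab] at h'
        rw [Fin.ext h'])
      (by
        intro u' v' h'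
        by_cases hne : u' = v'
        · rw [hne]
        · have hadj : (SimpleGraph.fromEdgeSet (F : Set (Sym2 (Fin n)))).Adj u' v' := by
            rw [SimpleGraph.fromEdgeSet_adj]; exact ⟨by exact_mod_cast h', hne⟩
          rw [decide_eq_decide]
          exact ⟨fun h => hadj.symm.reachable.trans h, fun h => hadj.reachable.trans h⟩) u v
    rw [decide_eq_decide] at this
    exact this.2 (SimpleGraph.Reachable.refl v)

open Classical in
/-- counting the elements of `connSub` -/
theorem ncard_connSub (hn : 0 < n) (G : SimpleGraph (Fin n)) (es : List (Fin n × Fin n))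
    (hG : G.edgeSet = ((edg es).toFinset : Set (Sym2 (Fin n)))) (P : Finset (Sym2 (Fin n)) → Prop)
    (Q : Set (Sym2 (Fin n)) → Prop) (hPQ : ∀ F : Finset (Sym2 (Fin n)), P F ↔ Q (F : Set (Sym2 (Fin n))))
    (k : ℤ) (m : ℕ) (hk : (m : ℤ) - n = k) :
    ({F | F ∈ connSub G k ∧ Q F} : Set (Set (Sym2 (Fin n)))).ncard =
      (((edg es).toFinset.powersetCard m).filter
        (fun F => CC (List.range n) F ∧ P F)).card := by
  rw [← Set.ncard_coe_finset]
  symm
  apply Set.ncard_congr (fun (F : Finset (Sym2 (Fin n))) _ => (F : Set (Sym2 (Fin n))))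
  · intro F hF
    rw [Finset.mem_coe, Finset.mem_filter, Finset.mem_powersetCard] at hF
    obtain ⟨⟨h1, h2⟩, h3, h4⟩ := hF
    refine ⟨⟨?_, (connected_iff hn F).2 h3, ?_⟩, (hPQ F).1 h4⟩
    · rw [hG]; exact_mod_cast h1
    · rw [Set.ncard_coe_finset, h2, Fintype.card_fin]; exact hk
  · intro F F' _ _ h
    exact_mod_cast h
  · intro F hF
    obtain ⟨⟨h1, h2, h3⟩, h4⟩ := hF
    have hfin : F.Finite := Set.toFinite F
    refine ⟨hfin.toFinset, ?_, hfin.coe_toFinset⟩
    have hc : ((hfin.toFinset : Finset _) : Set (Sym2 (Fin n))) = F := hfin.coe_toFinset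
    rw [Finset.mem_coe, Finset.mem_filter, Finset.mem_powersetCard]
    refine ⟨⟨?_, ?_⟩, ?_, ?_⟩
    · rw [← Finset.coe_subset, hc, ← hG]; exact h1
    · rw [← Set.ncard_coe_finset, hc]
      rw [Fintype.card_fin] at h3
      omega
    · rw [← connected_iff hn, hc]; exact h2
    · rw [hPQ, hc]; exact h4

/-! ### the example -/

/-- the five triangles -/
def tri : List (Fin 11 × Fin 11) :=
  [(0,1),(1,2),(0,2),(2,3),(3,4),(2,4),(4,5),(5,6),(4,6),(6,7),(7,8),(6,8),(8,9),(9,10),(8,10)]

/-- the five triangles, as pairs of naturals -/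
def triN : List (ℕ × ℕ) :=
  [(0,1),(1,2),(0,2),(2,3),(3,4),(2,4),(4,5),(5,6),(4,6),(6,7),(7,8),(6,8),(8,9),(9,10),(8,10)]

/-- all sixteen edges -/
def allE : List (Fin 11 × Fin 11) := (0, 10) :: tri

theorem cA10 : cnt triN (List.range 11) 10 = 243 := by
  rw [← cntF_eq triN (List.range 11) 11 10 (by decide)]
  decide +kernel
theorem cA11 : cnt triN (List.range 11) 11 = 405 := by
  rw [← cntF_eq triN (List.range 11) 11 11 (by decide)]
  decide +kernel
theorem cB9 : cnt triN (merge (List.range 11) 0 10) 9 = 810 := by
  rw [← cntF_eq triN (merge (List.range 11) 0 10) 10 9 (by decide)]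
  decide +kernel
theorem cB10 : cnt triN (merge (List.range 11) 0 10) 10 = 1323 := by
  rw [← cntF_eq triN (merge (List.range 11) 0 10) 10 10 (by decide)]
  decide +kernel

theorem toN_tri : toN tri = triN := by decide

theorem nodup_tri : (edg tri).Nodup := by decide +kernel
theorem notin_tri : s((0 : Fin 11), (10 : Fin 11)) ∉ edg tri := by decide +kernel
theorem nodup_all : (edg allE).Nodup := List.nodup_cons.2 ⟨notin_tri, nodup_tri⟩

/-- the graph -/
def G : SimpleGraph (Fin 11) := SimpleGraph.fromEdgeSet ((edg allE).toFinset : Set (Sym2 (Fin 11)))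

theorem edgeSet_G : G.edgeSet = ((edg allE).toFinset : Set (Sym2 (Fin 11))) := by
  unfold G
  rw [SimpleGraph.edgeSet_fromEdgeSet]
  rw [sdiff_eq_left, Set.disjoint_left]
  intro e he
  rw [Finset.mem_coe, List.mem_toFinset] at he
  have key : ∀ e ∈ edg allE, ¬ e.IsDiag := by decide +kernel
  exact key e he

open Classical in
theorem total (k : ℤ) (m : ℕ) (hk : ((m + 1 : ℕ) : ℤ) - (11 : ℕ) = k) (hm : m ≤ 15) :
    (connSub G k).ncard = cnt triN (merge (List.range 11) 0 10) m +
      cnt triN (List.range 11) (m + 1) := by
  have h := ncard_connSub (by norm_num) G allE edgeSet_G (fun _ => True) (fun _ => True)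
    (fun _ => Iff.rfl) k (m + 1) hk
  have h1 : ({F | F ∈ connSub G k ∧ True} : Set (Set (Sym2 (Fin 11)))) = connSub G k := by
    ext F; simp
  rw [h1] at h
  rw [h]
  have h2 := card_filter_CC allE nodup_all (List.range 11) (by simp) (m + 1)
  have h3 : cnt (toN allE) (List.range 11) (m + 1) =
      if (toN tri).length + 1 < m + 1 then 0 else
        cnt (toN tri) (merge (List.range 11) 0 10) m + cnt (toN tri) (List.range 11) (m + 1) := rfl
  rw [h3, toN_tri, if_neg] at h2
  · rw [← h2]
    congr 1
    ext F
    simp
  · have : triN.length = 15 := rfl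
    omega

/-- the closing edge belongs to `F` -/
def hasE (F : Finset (Sym2 (Fin 11))) : Prop := s((0 : Fin 11), (10 : Fin 11)) ∈ F

open Classical in
theorem withE (k : ℤ) (m : ℕ) (hk : ((m + 1 : ℕ) : ℤ) - (11 : ℕ) = k) :
    ({F | F ∈ connSub G k ∧ s((0 : Fin 11), (10 : Fin 11)) ∈ F} :
      Set (Set (Sym2 (Fin 11)))).ncard = cnt triN (merge (List.range 11) 0 10) m := by
  rw [ncard_connSub (by norm_num) G allE edgeSet_G hasE
    (fun F => s((0 : Fin 11), (10 : Fin 11)) ∈ F) (fun _ => by simp [hasE]) k (m + 1) hk]
  have h2 := card_filter_CC tri nodup_tri (merge (List.range 11) ((0 : Fin 11) : ℕ)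
    ((10 : Fin 11) : ℕ)) (by rw [length_merge]; simp) m
  rw [toN_tri] at h2
  have h4 : cnt triN (merge (List.range 11) ((0 : Fin 11) : ℕ) ((10 : Fin 11) : ℕ)) m =
    cnt triN (merge (List.range 11) 0 10) m := rfl
  rw [h4] at h2
  rw [← h2]
  have hnot : s((0 : Fin 11), (10 : Fin 11)) ∉ (edg tri).toFinset := by
    rw [List.mem_toFinset]; exact notin_tri
  have hS : (edg allE).toFinset = insert s((0 : Fin 11), (10 : Fin 11)) (edg tri).toFinset := by
    simp [edg, allE]
  rw [hS]
  symm
  apply Finset.card_bij (fun F _ => insert s((0 : Fin 11), (10 : Fin 11)) F)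
  · intro F hF
    rw [Finset.mem_filter, Finset.mem_powersetCard] at hF ⊢
    obtain ⟨⟨hF1, hF2⟩, hF3⟩ := hF
    refine ⟨⟨Finset.insert_subset_insert _ hF1, ?_⟩, (CC_merge (by simp) _ _ F).2 hF3,
      Finset.mem_insert_self _ _⟩
    rw [Finset.card_insert_of_notMem (fun h => hnot (hF1 h)), hF2]
  · intro F hF F' hF' hEq
    have h1 : s((0 : Fin 11), (10 : Fin 11)) ∉ F := fun h => hnot ((Finset.mem_powersetCard.1
      (Finset.mem_filter.1 hF).1).1 h)
    have h2 : s((0 : Fin 11), (10 : Fin 11)) ∉ F' := fun h => hnot ((Finset.mem_powersetCard.1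
      (Finset.mem_filter.1 hF').1).1 h)
    rw [← Finset.erase_insert h1, hEq, Finset.erase_insert h2]
  · intro F hF
    rw [Finset.mem_filter, Finset.mem_powersetCard] at hF
    obtain ⟨⟨hF1, hF2⟩, hF3, hF4⟩ := hF
    refine ⟨F.erase s((0 : Fin 11), (10 : Fin 11)), ?_, Finset.insert_erase hF4⟩
    rw [Finset.mem_filter, Finset.mem_powersetCard]
    refine ⟨⟨?_, ?_⟩, ?_⟩
    · intro x hx
      rw [Finset.mem_erase] at hx
      rcases Finset.mem_insert.1 (hF1 hx.2) with h | h
      · exact absurd h hx.1
      · exact h
    · rw [Finset.card_erase_of_mem hF4, hF2]; rfl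
    · rw [← CC_merge (by simp), Finset.insert_erase hF4]; exact hF3

theorem connected_G : G.Connected := by
  have h := total (-1) 9 (by norm_num) (by norm_num)
  rw [cB9, cA10] at h
  have hne : (connSub G (-1)).Nonempty := by
    rw [← Set.ncard_pos (Set.toFinite _), h]; norm_num
  obtain ⟨F, hF1, hF2, _⟩ := hne
  refine hF2.mono ?_
  rw [← SimpleGraph.fromEdgeSet_edgeSet G]
  exact SimpleGraph.fromEdgeSet_mono hF1

theorem result : ∃ (n : ℕ) (G : SimpleGraph (Fin n)), G.Connected ∧ ∃ e ∈ G.edgeSet, ∃ k : ℤ,
    -1 ≤ k ∧ k < (G.edgeSet.ncard : ℤ) - n ∧ marginal G e (k + 1) < marginal G e k := by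
  refine ⟨11, G, connected_G, s(0, 10), ?_, -1, le_refl _, ?_, ?_⟩
  · rw [edgeSet_G, Finset.mem_coe, List.mem_toFinset]
    exact List.mem_cons_self
  · rw [edgeSet_G, Set.ncard_coe_finset, List.toFinset_card_of_nodup nodup_all]
    decide
  · unfold marginal
    have e0 : (-1 + 1 : ℤ) = 0 := rfl
    rw [e0, total (-1) 9 (by norm_num) (by norm_num), total 0 10 (by norm_num) (by norm_num),
      withE (-1) 9 (by norm_num), withE 0 10 (by norm_num), cA10, cA11, cB9, cB10]
    norm_num

end Pool.Agent.Results.MP_7fb2f0_pr.MarginalNotMonotone
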